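import Pool.Agent.H18.VP.Targets2

/-!
# Points with integer coordinates whose fibre is one Galois orbit (row HGK of `vz_modules`)
-/

open MvPolynomial
open Pool.Agent.H18.HIT Pool.Agent.H18.HX Pool.Agent.H18.VP

namespace Pool.Agent.H15.VP

/-- the set of coefficients -/
noncomputable def cf {M : ℕ} {k : Type} [Field k] [DecidableEq k] (q : Po M k) : Finset k :=
  q.support.image (fun m => coeff m q)

theorem map_of_cf {M : ℕ} {k : Type} [Field k] [DecidableEq k] (q : Po M k) (σ : k ≃+* k)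
    (h : ∀ a ∈ cf q, σ a = a) : map (σ : k →+* k) q = q := by
  ext m
  rw [coeff_map]
  by_cases hm : coeff m q = 0
  · rw [hm, map_zero]
  · exact h _ (Finset.mem_image_of_mem _ (mem_support_iff.2 hm))

/-- the set of coefficients of the coefficients -/
noncomputable def cfP {M : ℕ} {k : Type} [Field k] [DecidableEq k] (Q : Polynomial (Po M k)) :
    Finset k := Q.support.biUnion (fun j => cf (Q.coeff j))

theorem map_of_cfP {M : ℕ} {k : Type} [Field k] [DecidableEq k] (Q : Polynomial (Po M k))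
    (σ : k ≃+* k) (h : ∀ a ∈ cfP Q, σ a = a) : Q.map (map (σ : k →+* k)) = Q := by
  ext1 j
  rw [Polynomial.coeff_map]
  by_cases hj : Q.coeff j = 0
  · rw [hj, map_zero]
  · exact map_of_cf _ σ fun a ha =>
      h a (Finset.mem_biUnion.2 ⟨j, Polynomial.mem_support_iff.2 hj, ha⟩)

theorem sig_eval {M : ℕ} {k : Type} [Field k] (σ : k →+* k) (y : Fin M → k)
    (hy : ∀ i, σ (y i) = y i) (q : Po M k) : σ (eval y q) = eval y (map σ q) := by
  have h : σ.comp (eval y : Po M k →+* k) = (eval y).comp (map σ) := by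
    apply ringHom_ext
    · intro a
      simp
    · intro i
      simp [hy i]
  exact RingHom.congr_fun h q

theorem eval_evg {L N : ℕ} {k : Type} [Field k] (x : Fin L → k) (g : Fin N → Po L k) (θ : Po L k)
    (y : Fin N → k) (hy : ∀ j, eval x (g j) = y j) (Q : Polynomial (Po N k)) :
    eval x (evg g θ Q) = (Q.map (eval y)).eval (eval x θ) := by
  have h : (eval x : Po L k →+* k).comp ((aeval g : Po N k →ₐ[k] Po L k).toRingHom) =
      (eval y : Po N k →+* k) := by
    apply ringHom_ext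
    · intro a
      simp
    · intro i
      simp [hy i]
  unfold evg
  rw [Polynomial.hom_eval₂, h, Polynomial.eval_map]

theorem eval_ag {L N : ℕ} {k : Type} [Field k] (x : Fin L → k) (g : Fin N → Po L k)
    (y : Fin N → k) (hy : ∀ j, eval x (g j) = y j) (q : Po N k) :
    eval x (aeval g q) = eval y q := by
  have h : (eval x : Po L k →+* k).comp ((aeval g : Po N k →ₐ[k] Po L k).toRingHom) =
      (eval y : Po N k →+* k) := by
    apply ringHom_ext
    · intro a
      simp
    · intro i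
      simp [hy i]
  exact RingHom.congr_fun h q

theorem pf_HGK (hPEG : Pool.Agent.H18.HX.T_PEG) (hHPK : T_HPK) : T_HGK := by
  intro k _ _ _ hft L N I hI g s c hinj hfin hc
  classical
  obtain ⟨θ, Φ, Δ, R, hmon, hirr, hroot, hΔ, hcoord⟩ := hPEG L N k I g hinj hfin
  obtain ⟨w, hw, hgal⟩ := hHPK k hft N Φ (c * Δ)
    (s.biUnion cf ∪ cf Δ ∪ Finset.univ.biUnion fun i => cfP (R i)) hmon hirr (mul_ne_zero hc hΔ)
  rw [map_mul] at hw
  refine ⟨w, left_ne_zero_of_mul hw, fun x x' hx hx' hgx hgx' => ?_⟩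
  replace hgx : ∀ j, eval x (g j) = (Pool.Agent.H18.VP.cZ w : Fin N → k) j := hgx
  replace hgx' : ∀ j, eval x' (g j) = (Pool.Agent.H18.VP.cZ w : Fin N → k) j := hgx'
  have hτ : (Φ.map (eval (Pool.Agent.H18.VP.cZ w : Fin N → k))).eval (eval x θ) = 0 := by
    rw [← eval_evg x g θ _ hgx]
    exact hx _ hroot
  have hτ' : (Φ.map (eval (Pool.Agent.H18.VP.cZ w : Fin N → k))).eval (eval x' θ) = 0 := by
    rw [← eval_evg x' g θ _ hgx']
    exact hx' _ hroot
  obtain ⟨σ, hσ, hστ⟩ := hgal _ _ hτ hτ'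
  refine ⟨σ, fun q hq => map_of_cf q σ fun a ha => hσ a ?_, fun i => ?_⟩
  · exact Finset.mem_union_left _ (Finset.mem_union_left _ (Finset.mem_biUnion.2 ⟨q, hq, ha⟩))
  · have hmΔ : map (σ : k →+* k) Δ = Δ := map_of_cf Δ σ fun a ha =>
      hσ a (Finset.mem_union_left _ (Finset.mem_union_right _ ha))
    have hmR : (R i).map (map (σ : k →+* k)) = R i := map_of_cfP (R i) σ fun a ha =>
      hσ a (Finset.mem_union_right _ (Finset.mem_biUnion.2 ⟨i, Finset.mem_univ i, ha⟩))
    have hy : ∀ j, (σ : k →+* k) ((Pool.Agent.H18.VP.cZ w : Fin N → k) j) =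
        (Pool.Agent.H18.VP.cZ w : Fin N → k) j := fun j => map_intCast (σ : k →+* k) (w j)
    have h1 := hx _ (hcoord i)
    have h2 := hx' _ (hcoord i)
    rw [map_sub, map_mul, eval_X, eval_evg x g θ _ hgx, eval_ag x g _ hgx, sub_eq_zero] at h1
    rw [map_sub, map_mul, eval_X, eval_evg x' g θ _ hgx', eval_ag x' g _ hgx', sub_eq_zero] at h2
    have h3 := congrArg (σ : k →+* k) h1
    rw [map_mul, sig_eval _ _ hy, hmΔ] at h3
    have h4 : (σ : k →+* k) (((R i).map (eval (Pool.Agent.H18.VP.cZ w : Fin N → k))).eval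
        (eval x θ)) =
        ((R i).map (eval (Pool.Agent.H18.VP.cZ w : Fin N → k))).eval (eval x' θ) := by
      rw [Polynomial.eval_map, Polynomial.hom_eval₂]
      have h5 : (σ : k →+* k).comp (eval (Pool.Agent.H18.VP.cZ w : Fin N → k)) =
          (eval (Pool.Agent.H18.VP.cZ w : Fin N → k)).comp (map (σ : k →+* k)) :=
        RingHom.ext fun q => sig_eval _ _ hy q
      rw [h5, ← Polynomial.eval₂_map, hmR]
      have h6 : (σ : k →+* k) (eval x θ) = eval x' θ := hστ
      rw [h6, Polynomial.eval_map]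
    rw [h4, ← h2] at h3
    exact mul_left_cancel₀ (right_ne_zero_of_mul hw) h3

end Pool.Agent.H15.VP
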